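import Pool.Agent.Helper44.GN.Defs

open Finset MeasureTheory Filter Topology Matrix
open scoped ENNReal ContDiff

namespace Pool.Agent.Helper44.GN

open Pool.Agent.Helper44.GF

theorem gam_cont (α : ℝ) :
    ContinuousOn (fun v : ℝ => (1 - Real.exp (-v)) * v ^ (-1 - α)) (Set.Ioi 0) := by
  apply ContinuousOn.mul
  · exact (continuous_const.sub (Real.continuous_exp.comp continuous_neg)).continuousOn
  · exact ContinuousOn.rpow_const continuousOn_id fun x hx => Or.inl (ne_of_gt hx)

theorem st_GAM : ST_GAM := by
  intro α h0 h1
  have hint : IntegrableOn (fun v : ℝ => (1 - Real.exp (-v)) * v ^ (-1 - α)) (Set.Ioi 0) := by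
    have hsplit : Set.Ioi (0 : ℝ) = Set.Ioc 0 1 ∪ Set.Ioi 1 :=
      (Set.Ioc_union_Ioi_eq_Ioi zero_le_one).symm
    rw [hsplit]
    apply IntegrableOn.union
    · have h2 : IntegrableOn (fun v : ℝ => v ^ (-α)) (Set.Ioc 0 1) := by
        have := intervalIntegral.intervalIntegrable_rpow' (a := 0) (b := 1) (r := -α)
          (by linarith only [h1])
        rwa [intervalIntegrable_iff_integrableOn_Ioc_of_le zero_le_one] at this
      refine Integrable.mono' h2 ?_ ?_
      · exact ((gam_cont α).mono (fun x hx => hx.1)).aestronglyMeasurable measurableSet_Ioc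
      · refine (ae_restrict_iff' measurableSet_Ioc).2 (Eventually.of_forall fun v hv => ?_)
        have hv0 : 0 < v := hv.1
        have h3 : 0 ≤ 1 - Real.exp (-v) := by
          have : Real.exp (-v) ≤ 1 := Real.exp_le_one_iff.2 (by linarith only [hv0])
          linarith only [this]
        have h4 : 1 - Real.exp (-v) ≤ v := by
          have := Real.add_one_le_exp (-v)
          linarith only [this]
        have h5 : 0 < v ^ (-1 - α) := Real.rpow_pos_of_pos hv0 _
        rw [Real.norm_of_nonneg (mul_nonneg h3 h5.le)]
        calc (1 - Real.exp (-v)) * v ^ (-1 - α) ≤ v * v ^ (-1 - α) := by gcongr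
          _ = v ^ (-α) := by
            rw [← Real.rpow_one_add' hv0.le (by
              intro h
              apply h0.ne'
              linarith only [h])]
            congr 1
            ring
    · have h2 : IntegrableOn (fun v : ℝ => v ^ (-1 - α)) (Set.Ioi 1) :=
        integrableOn_Ioi_rpow_of_lt (by linarith only [h0]) one_pos
      refine Integrable.mono' h2 ?_ ?_
      · exact ((gam_cont α).mono (Set.Ioi_subset_Ioi zero_le_one)).aestronglyMeasurable
          measurableSet_Ioi
      · refine (ae_restrict_iff' measurableSet_Ioi).2 (Eventually.of_forall fun v hv => ?_)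
        have hv0 : 0 < v := lt_trans one_pos hv
        have h3 : 0 ≤ 1 - Real.exp (-v) := by
          have : Real.exp (-v) ≤ 1 := Real.exp_le_one_iff.2 (by linarith only [hv0])
          linarith only [this]
        have h4 : 1 - Real.exp (-v) ≤ 1 := by
          have := Real.exp_pos (-v)
          linarith only [this]
        have h5 : 0 < v ^ (-1 - α) := Real.rpow_pos_of_pos hv0 _
        rw [Real.norm_of_nonneg (mul_nonneg h3 h5.le)]
        exact mul_le_of_le_one_left h5.le h4
  refine ⟨hint, ?_⟩
  unfold Jg
  have hpos : ∀ v ∈ Set.Ioi (0 : ℝ), 0 < (1 - Real.exp (-v)) * v ^ (-1 - α) := by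
    intro v hv
    have hv0 : 0 < v := hv
    have h3 : 0 < 1 - Real.exp (-v) := by
      have : Real.exp (-v) < 1 := Real.exp_lt_one_iff.2 (by linarith only [hv0])
      linarith only [this]
    exact mul_pos h3 (Real.rpow_pos_of_pos hv0 _)
  rw [setIntegral_pos_iff_support_of_nonneg_ae]
  · have : Function.support (fun v : ℝ => (1 - Real.exp (-v)) * v ^ (-1 - α)) ∩ Set.Ioi 0 =
        Set.Ioi 0 := by
      apply Set.inter_eq_right.2
      intro v hv
      exact (hpos v hv).ne'
    rw [this]
    simp
  · exact (ae_restrict_iff' measurableSet_Ioi).2 (Eventually.of_forall fun v hv => (hpos v hv).le)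
  · exact hint

end Pool.Agent.Helper44.GN
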