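import Pool.Agent.Helper38.GN.LMC

open Finset MeasureTheory Filter Topology Matrix
open scoped ENNReal ContDiff

namespace Pool.Agent.Helper44.GN

open Pool.Agent.Helper44.GF

theorem llb_yy1 (α a z : ℝ) (ha : 0 < a) (hz : 0 < z) : 1 ≤ yy α a z := by
  unfold yy
  have : 0 < a * z ^ (-(4 / α)) := mul_pos ha (Real.rpow_pos_of_pos hz _)
  linarith only [this]

theorem llb_ii (α a δ w : ℝ) (hδ : 0 < δ) (p q : ℝ) (hp : δ ≤ p) (hq : p ≤ q) :
    IntervalIntegrable (fun z => z ^ 3 * Real.exp (-(w * yy α a z))) volume p q := by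
  have hc : Continuous (fun z : ℝ => z ^ 3 * Real.exp (-(w * yy α a (max z δ)))) :=
    (continuous_pow 3).mul (Real.continuous_exp.comp
      (continuous_const.mul (lmc_yy α a δ hδ)).neg)
  apply (hc.intervalIntegrable p q).congr
  intro z hz
  rw [Set.uIoc_of_le hq] at hz
  show z ^ 3 * Real.exp (-(w * yy α a (max z δ))) = z ^ 3 * Real.exp (-(w * yy α a z))
  rw [max_eq_left (hp.trans hz.1.le)]

theorem llb_D (δ : ℝ) : (∫ z in δ..1, z ^ 3) = (1 - δ ^ 4) / 4 := by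
  rw [integral_pow]
  norm_num

theorem llb_B (α a δ w : ℝ) (ha : 0 < a) (hδ : 0 < δ) (h1 : δ < 1) (hw : 0 ≤ w) :
    (∫ z in δ..1, z ^ 3 * Real.exp (-(w * yy α a z))) ≤ Real.exp (-w) * ∫ z in δ..1, z ^ 3 := by
  rw [← intervalIntegral.integral_const_mul]
  apply intervalIntegral.integral_mono_on h1.le (llb_ii α a δ w hδ δ 1 le_rfl h1.le)
  · exact ((continuous_const.mul (continuous_pow 3)).intervalIntegrable _ _)
  · intro z hz
    have hz0 : 0 < z := hδ.trans_le hz.1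
    have h2 := llb_yy1 α a z ha hz0
    have h3 : Real.exp (-(w * yy α a z)) ≤ Real.exp (-w) := by
      apply Real.exp_le_exp.2
      have : w * 1 ≤ w * yy α a z := mul_le_mul_of_nonneg_left h2 hw
      linarith only [this]
    calc z ^ 3 * Real.exp (-(w * yy α a z)) ≤ z ^ 3 * Real.exp (-w) := by gcongr
      _ = Real.exp (-w) * z ^ 3 := mul_comm _ _

theorem llb_half : Real.exp (-1) ≤ 1 / 2 := by
  have h1 := Real.add_one_le_exp (1 : ℝ)
  rw [Real.exp_neg, inv_eq_one_div]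
  apply one_div_le_one_div_of_le (by norm_num)
  linarith only [h1]

theorem llb_A (α a δ w ζ : ℝ) (hα : 0 < α) (ha : 0 < a) (hδ : 0 < δ) (h1 : δ < 1) (hw : 0 ≤ w)
    (hζ : ζ = (w * a) ^ (α / 4)) (hwa : w * a ≤ 1) :
    (∫ z in δ..1, z ^ 3 * Real.exp (-(w * yy α a z))) ≤
      (∫ z in δ..1, z ^ 3) - (ζ ^ 4 - δ ^ 4) / 8 := by
  have hwa0 : 0 ≤ w * a := by positivity
  have hζ0 : 0 ≤ ζ := by rw [hζ]; positivity
  have hζ1 : ζ ≤ 1 := by
    rw [hζ]
    exact Real.rpow_le_one hwa0 hwa (by positivity)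
  have htriv : ∀ p q : ℝ, δ ≤ p → p ≤ q →
      (∫ z in p..q, z ^ 3 * Real.exp (-(w * yy α a z))) ≤ ∫ z in p..q, z ^ 3 := by
    intro p q hp hq
    apply intervalIntegral.integral_mono_on hq (llb_ii α a δ w hδ p q hp hq)
      ((continuous_pow 3).intervalIntegrable _ _)
    intro z hz
    have hz0 : 0 < z := hδ.trans_le (hp.trans hz.1)
    have h2 := llb_yy1 α a z ha hz0
    have h3 : Real.exp (-(w * yy α a z)) ≤ 1 := by
      apply Real.exp_le_one_iff.2
      have : 0 ≤ w * yy α a z := mul_nonneg hw (by linarith only [h2])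
      linarith only [this]
    exact mul_le_of_le_one_right (by positivity) h3
  by_cases hζδ : ζ ≤ δ
  · have h2 := htriv δ 1 le_rfl h1.le
    have h3 : ζ ^ 4 ≤ δ ^ 4 := pow_le_pow_left₀ hζ0 hζδ 4
    linarith only [h2, h3]
  · push Not at hζδ
    have hζp : 0 < ζ := hδ.trans hζδ
    have hhalf : (∫ z in δ..ζ, z ^ 3 * Real.exp (-(w * yy α a z))) ≤
        ∫ z in δ..ζ, (1 / 2) * z ^ 3 := by
      apply intervalIntegral.integral_mono_on hζδ.le (llb_ii α a δ w hδ δ ζ le_rfl hζδ.le)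
        ((continuous_const.mul (continuous_pow 3)).intervalIntegrable _ _)
      intro z hz
      have hz0 : 0 < z := hδ.trans_le hz.1
      have hzz : z ^ (4 / α) ≤ w * a := by
        calc z ^ (4 / α) ≤ ζ ^ (4 / α) := Real.rpow_le_rpow hz0.le hz.2 (by positivity)
          _ = w * a := by
            rw [hζ, ← Real.rpow_mul hwa0]
            have : α / 4 * (4 / α) = 1 := by field_simp
            rw [this, Real.rpow_one]
      have h4 : 1 ≤ w * yy α a z := by
        have h5 : 0 < z ^ (4 / α) := Real.rpow_pos_of_pos hz0 _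
        have h6 : 1 ≤ (w * a) * z ^ (-(4 / α)) := by
          rw [Real.rpow_neg hz0.le, ← div_eq_mul_inv, le_div_iff₀ h5, one_mul]
          exact hzz
        unfold yy
        calc (1 : ℝ) ≤ (w * a) * z ^ (-(4 / α)) := h6
          _ ≤ w * (1 + a * z ^ (-(4 / α))) := by
            have : w * (1 + a * z ^ (-(4 / α))) = w + (w * a) * z ^ (-(4 / α)) := by ring
            linarith only [this, hw]
      have h7 : Real.exp (-(w * yy α a z)) ≤ 1 / 2 :=
        (Real.exp_le_exp.2 (by linarith only [h4])).trans llb_half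
      calc z ^ 3 * Real.exp (-(w * yy α a z)) ≤ z ^ 3 * (1 / 2) := by gcongr
        _ = 1 / 2 * z ^ 3 := by ring
    have h8 := htriv ζ 1 hζδ.le hζ1
    have e1 : (∫ z in δ..1, z ^ 3 * Real.exp (-(w * yy α a z))) =
        (∫ z in δ..ζ, z ^ 3 * Real.exp (-(w * yy α a z))) +
        ∫ z in ζ..1, z ^ 3 * Real.exp (-(w * yy α a z)) :=
      (intervalIntegral.integral_add_adjacent_intervals (llb_ii α a δ w hδ δ ζ le_rfl hζδ.le)
        (llb_ii α a δ w hδ ζ 1 hζδ.le hζ1)).symm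
    have e2 : (∫ z in δ..ζ, (1 / 2) * z ^ 3) = (ζ ^ 4 - δ ^ 4) / 8 := by
      rw [intervalIntegral.integral_const_mul, integral_pow]
      norm_num
      ring
    have e3 : (∫ z in ζ..1, z ^ 3) = (1 - ζ ^ 4) / 4 := llb_D ζ
    have e4 : (∫ z in δ..1, z ^ 3) = (1 - δ ^ 4) / 4 := llb_D δ
    rw [e1, e4]
    rw [e2] at hhalf
    rw [e3] at h8
    linarith only [hhalf, h8]

theorem llb_pow (α v : ℝ) (hα : 1 / 2 ≤ α) (hv : 0 ≤ v) : Real.sqrt v - 1 ≤ v ^ α := by
  by_cases h : v ≤ 1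
  · have h1 : Real.sqrt v ≤ 1 := Real.sqrt_le_one.2 h
    have h2 : 0 ≤ v ^ α := Real.rpow_nonneg hv _
    linarith only [h1, h2]
  · push Not at h
    rw [Real.sqrt_eq_rpow]
    have : v ^ (1 / 2 : ℝ) ≤ v ^ α := Real.rpow_le_rpow_of_exponent_le h.le hα
    linarith only [this]

theorem st_LLB (h : ST_GAM) (_h2 : ST_YD) : ST_LLB := by
  intro α a hα hα1 ha
  have hα0 : 0 < α := by linarith only [hα]
  have hJ := (h α hα0 hα1).2
  obtain ⟨c0, hc0⟩ : ∃ c0 : ℝ, c0 = (α * Jg α) ^ (-(1 / α)) / a := ⟨_, rfl⟩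
  have hc0p : 0 < c0 := by
    rw [hc0]
    exact div_pos (Real.rpow_pos_of_pos (mul_pos hα0 hJ) _) ha
  refine ⟨min (1 / 2 * Real.sqrt (c0 * a)) (Real.sqrt (c0 / a)), 1, ?_, ?_⟩
  · apply lt_min
    · have : 0 < Real.sqrt (c0 * a) := Real.sqrt_pos.2 (by positivity)
      linarith only [this]
    · exact Real.sqrt_pos.2 (by positivity)
  intro k u hu
  have hk : (0 : ℝ) < (k : ℝ) + 1 := by positivity
  have hk1 : (1 : ℝ) ≤ (k : ℝ) + 1 := by
    have : (0 : ℝ) ≤ k := Nat.cast_nonneg k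
    linarith only [this]
  obtain ⟨N, hN⟩ : ∃ N : ℝ, N = (k : ℝ) + 1 := ⟨_, rfl⟩
  have hcs : cs α a k = c0 * N ^ (-(1 / α)) := by
    unfold cs
    rw [hc0, hN]
  have hN0 : 0 < N := by rw [hN]; exact hk
  have hN1 : 1 ≤ N := by rw [hN]; exact hk1
  have hNp : 0 < N ^ (-(1 / α)) := Real.rpow_pos_of_pos hN0 _
  obtain ⟨w, hw⟩ : ∃ w : ℝ, w = cs α a k * u := ⟨_, rfl⟩
  have hw0 : 0 ≤ w := by
    rw [hw, hcs]
    positivity
  obtain ⟨δ, hδ⟩ : ∃ δ : ℝ, δ = 1 / ((k : ℝ) + 2) := ⟨_, rfl⟩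
  have hδ0 : 0 < δ := by rw [hδ]; positivity
  have hδ1 : δ < 1 := by
    rw [hδ, div_lt_one (by positivity)]
    linarith only [hk1]
  rw [← hw, ← hδ]
  have hcast : ((k + 1 : ℕ) : ℝ) = N := by rw [hN]; push_cast; ring
  unfold lamf
  rw [hcast]
  obtain ⟨M, hM⟩ : ∃ M : ℝ, M = ∫ z in δ..1, z ^ 3 * Real.exp (-(w * yy α a z)) := ⟨_, rfl⟩
  obtain ⟨D, hD⟩ : ∃ D : ℝ, D = ∫ z in δ..1, z ^ 3 := ⟨_, rfl⟩
  have hM0 : 0 < M := by rw [hM]; exact lmc_pos α a δ w hδ0 hδ1
  have hD4 : D = (1 - δ ^ 4) / 4 := by rw [hD]; exact llb_D δ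
  have hδ4 : δ ^ 4 < 1 := pow_lt_one₀ hδ0.le hδ1 (by norm_num)
  have hδ40 : 0 < δ ^ 4 := by positivity
  have hD0 : 0 < D := by rw [hD4]; linarith only [hδ4]
  have hMB : M ≤ Real.exp (-w) * D := by rw [hM, hD]; exact llb_B α a δ w ha hδ0 hδ1 hw0
  rw [← hM, ← hD]
  have hsu : Real.sqrt u * Real.sqrt (c0 * a) = Real.sqrt (c0 * a * u) := by
    rw [mul_comm, ← Real.sqrt_mul (by positivity)]
  have hsu2 : Real.sqrt u * Real.sqrt (c0 / a) = Real.sqrt (c0 / a * u) := by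
    rw [mul_comm, ← Real.sqrt_mul (by positivity)]
  have hs0 : 0 ≤ Real.sqrt u := Real.sqrt_nonneg u
  by_cases hwa : w * a ≤ 1
  · obtain ⟨ζ, hζ⟩ : ∃ ζ : ℝ, ζ = (w * a) ^ (α / 4) := ⟨_, rfl⟩
    have hA : M ≤ D - (ζ ^ 4 - δ ^ 4) / 8 := by
      rw [hM, hD]
      exact llb_A α a δ w ζ hα0 ha hδ0 hδ1 hw0 hζ hwa
    have hwa0 : 0 ≤ w * a := by positivity
    have hζ4 : ζ ^ 4 = (w * a) ^ α := by
      rw [hζ, ← Real.rpow_natCast, ← Real.rpow_mul hwa0]
      congr 1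
      push_cast
      ring
    have hζ0 : 0 ≤ ζ := by rw [hζ]; positivity
    have hq : M / D - 1 ≤ -((ζ ^ 4 - δ ^ 4) / 2) := by
      by_cases hcase : ζ ^ 4 ≤ δ ^ 4
      · have h3 : M ≤ D := by
          have h4 : Real.exp (-w) ≤ 1 := Real.exp_le_one_iff.2 (by linarith only [hw0])
          have h5 : Real.exp (-w) * D ≤ 1 * D := mul_le_mul_of_nonneg_right h4 hD0.le
          linarith only [hMB, h5]
        have h4 : M / D ≤ 1 := (div_le_one hD0).2 h3
        linarith only [h4, hcase]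
      · push Not at hcase
        have h3 : M / D ≤ (D - (ζ ^ 4 - δ ^ 4) / 8) / D := div_le_div_of_nonneg_right hA hD0.le
        have h4 : (D - (ζ ^ 4 - δ ^ 4) / 8) / D = 1 - (ζ ^ 4 - δ ^ 4) / 8 / D := by
          rw [sub_div, div_self hD0.ne']
        have h5 : (ζ ^ 4 - δ ^ 4) / 2 ≤ (ζ ^ 4 - δ ^ 4) / 8 / D := by
          rw [le_div_iff₀ hD0, hD4]
          nlinarith only [hcase, hδ40]
        linarith only [h3, h4, h5]
    have hlog : Real.log (M / D) ≤ M / D - 1 := Real.log_le_sub_one_of_pos (div_pos hM0 hD0)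
    have hNδ : N * δ ^ 4 ≤ 1 := by
      have h3 : N * δ ≤ 1 := by
        rw [hN, hδ, mul_one_div, div_le_one (by positivity)]
        linarith only
      have h4 : δ ^ 3 ≤ 1 := pow_le_one₀ hδ0.le hδ1.le
      have h5 : N * δ ^ 4 = (N * δ) * δ ^ 3 := by ring
      rw [h5]
      exact mul_le_one₀ h3 (by positivity) h4
    have hNz : N * ζ ^ 4 = (c0 * a * u) ^ α := by
      rw [hζ4, hw, hcs]
      have e1 : c0 * N ^ (-(1 / α)) * u * a = (c0 * a * u) * N ^ (-(1 / α)) := by ring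
      rw [e1, Real.mul_rpow (by positivity) hNp.le, ← Real.rpow_mul hN0.le]
      have e2 : -(1 / α) * α = -1 := by field_simp
      rw [e2, Real.rpow_neg_one]
      field_simp
    have hpow := llb_pow α (c0 * a * u) (by linarith only [hα]) (by positivity)
    have hmin : min (1 / 2 * Real.sqrt (c0 * a)) (Real.sqrt (c0 / a)) * Real.sqrt u ≤
        1 / 2 * Real.sqrt (c0 * a * u) := by
      calc min (1 / 2 * Real.sqrt (c0 * a)) (Real.sqrt (c0 / a)) * Real.sqrt u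
          ≤ (1 / 2 * Real.sqrt (c0 * a)) * Real.sqrt u :=
            mul_le_mul_of_nonneg_right (min_le_left _ _) hs0
        _ = 1 / 2 * (Real.sqrt u * Real.sqrt (c0 * a)) := by ring
        _ = _ := by rw [hsu]
    have hfin : N * (-((ζ ^ 4 - δ ^ 4) / 2)) = -(N * ζ ^ 4) / 2 + N * δ ^ 4 / 2 := by ring
    have h9 : N * Real.log (M / D) ≤ N * (-((ζ ^ 4 - δ ^ 4) / 2)) :=
      mul_le_mul_of_nonneg_left (hlog.trans hq) hN0.le
    rw [hfin, hNz] at h9
    linarith only [h9, hmin, hNδ, hpow]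
  · push Not at hwa
    have h3 : M / D ≤ Real.exp (-w) := (div_le_iff₀ hD0).2 hMB
    have h4 : Real.log (M / D) ≤ -w := by
      have := Real.log_le_log (div_pos hM0 hD0) h3
      rwa [Real.log_exp] at this
    have h5 : N * Real.log (M / D) ≤ N * (-w) := mul_le_mul_of_nonneg_left h4 hN0.le
    have h6 : Real.sqrt (c0 / a * u) ≤ N * w := by
      apply Real.sqrt_le_iff.2
      refine ⟨by positivity, ?_⟩
      have e1 : N ^ 2 * N ^ (-(1 / α)) = N ^ (2 - 1 / α) := by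
        rw [← Real.rpow_natCast N 2, ← Real.rpow_add hN0]
        congr 1
      have e2 : 1 ≤ N ^ (2 - 1 / α) := by
        apply Real.one_le_rpow hN1
        have : 1 / α ≤ 2 := by
          rw [div_le_iff₀ hα0]
          linarith only [hα]
        linarith only [this]
      have e3 : (N * w) ^ 2 = N ^ 2 * w * w := by ring
      have e4 : 1 / a ≤ w := by
        rw [div_le_iff₀ ha]
        exact hwa.le
      have e5 : N ^ 2 * w * (1 / a) ≤ N ^ 2 * w * w := by gcongr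
      have e6 : N ^ 2 * w * (1 / a) = (c0 / a * u) * (N ^ 2 * N ^ (-(1 / α))) := by
        rw [hw, hcs]
        ring
      rw [e3]
      calc c0 / a * u = (c0 / a * u) * 1 := (mul_one _).symm
        _ ≤ (c0 / a * u) * N ^ (2 - 1 / α) := by gcongr
        _ = N ^ 2 * w * (1 / a) := by rw [e6, e1]
        _ ≤ _ := e5
    have hmin : min (1 / 2 * Real.sqrt (c0 * a)) (Real.sqrt (c0 / a)) * Real.sqrt u ≤
        Real.sqrt (c0 / a * u) := by
      calc min (1 / 2 * Real.sqrt (c0 * a)) (Real.sqrt (c0 / a)) * Real.sqrt u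
          ≤ Real.sqrt (c0 / a) * Real.sqrt u :=
            mul_le_mul_of_nonneg_right (min_le_right _ _) hs0
        _ = Real.sqrt u * Real.sqrt (c0 / a) := by ring
        _ = _ := by rw [hsu2]
    linarith only [h5, h6, hmin]

end Pool.Agent.Helper44.GN
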