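import Pool.Agent.Helper44.GN.Defs

open Finset MeasureTheory Filter Topology Matrix
open scoped ENNReal ContDiff

namespace Pool.Agent.Helper44.GN

open Pool.Agent.Helper44.GF

theorem lmc_yy (α a δ : ℝ) (hδ : 0 < δ) : Continuous (fun z : ℝ => yy α a (max z δ)) := by
  unfold yy
  apply continuous_const.add
  apply continuous_const.mul
  apply Continuous.rpow_const (continuous_id.max continuous_const)
  intro z
  left
  exact (lt_max_of_lt_right hδ).ne'

theorem lmc_eq (α a δ w : ℝ) (h1 : δ < 1) :
    (∫ z in δ..1, z ^ 3 * Real.exp (-(w * yy α a z))) =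
      ∫ z in δ..1, z ^ 3 * Real.exp (-(w * yy α a (max z δ))) := by
  apply intervalIntegral.integral_congr
  intro z hz
  rw [Set.uIcc_of_le h1.le] at hz
  show z ^ 3 * Real.exp (-(w * yy α a z)) = z ^ 3 * Real.exp (-(w * yy α a (max z δ)))
  rw [max_eq_left hz.1]

theorem lmc_pos (α a δ w : ℝ) (hδ : 0 < δ) (h1 : δ < 1) :
    0 < ∫ z in δ..1, z ^ 3 * Real.exp (-(w * yy α a z)) := by
  rw [lmc_eq α a δ w h1]
  apply intervalIntegral.intervalIntegral_pos_of_pos_on
  · apply Continuous.intervalIntegrable
    exact (continuous_pow 3).mul (Real.continuous_exp.comp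
      (continuous_const.mul (lmc_yy α a δ hδ)).neg)
  · intro z hz
    have : 0 < z := hδ.trans hz.1
    positivity
  · exact h1

theorem st_LMC (_h : ST_YD) : ST_LMC := by
  intro α a δ c N hδ h1 _ _
  have hM : Continuous (fun u : ℝ => ∫ z in δ..1, z ^ 3 * Real.exp (-((c * u) * yy α a z))) := by
    have e : (fun u : ℝ => ∫ z in δ..1, z ^ 3 * Real.exp (-((c * u) * yy α a z))) =
        fun u : ℝ => ∫ z in δ..1, z ^ 3 * Real.exp (-((c * u) * yy α a (max z δ))) := by
      funext u
      exact lmc_eq α a δ (c * u) h1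
    rw [e]
    apply intervalIntegral.continuous_parametric_intervalIntegral_of_continuous'
    have h2 := (lmc_yy α a δ hδ).comp (continuous_snd (X := ℝ) (Y := ℝ))
    exact ((continuous_snd.pow 3)).mul (Real.continuous_exp.comp
      (((continuous_const.mul continuous_fst).mul h2).neg))
  have hD : (0 : ℝ) < ∫ z in δ..1, z ^ 3 := by
    rw [integral_pow]
    have : δ ^ 4 < 1 := pow_lt_one₀ hδ.le h1 (by norm_num)
    norm_num
    exact this
  unfold lamf
  apply Continuous.continuousOn
  apply Continuous.neg
  apply continuous_const.mul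
  apply Continuous.log (hM.div_const _)
  intro u
  exact (div_pos (lmc_pos α a δ (c * u) hδ h1) hD).ne'

end Pool.Agent.Helper44.GN
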