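import Pool.Agent.Helper44.GN.Defs

open Finset MeasureTheory Filter Topology Matrix
open scoped ENNReal ContDiff

namespace Pool.Agent.Helper44.GN

open Pool.Agent.Helper44.GF

theorem yd_two : (2 : ℝ) ^ (101 / 25 : ℝ) ≤ 17 := by
  by_contra h
  push Not at h
  have h1 : (17 : ℝ) ^ 25 < ((2 : ℝ) ^ (101 / 25 : ℝ)) ^ 25 :=
    pow_lt_pow_left₀ h (by norm_num) (by norm_num)
  have h2 : ((2 : ℝ) ^ (101 / 25 : ℝ)) ^ 25 = (2 : ℝ) ^ 101 := by
    rw [← Real.rpow_natCast ((2 : ℝ) ^ (101 / 25 : ℝ)) 25, ← Real.rpow_mul (by norm_num),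
      ← Real.rpow_natCast (2 : ℝ) 101]
    congr 1
    norm_num
  rw [h2] at h1
  norm_num at h1

theorem yd_pow (α z : ℝ) (h1 : 199 / 200 ≤ α) (hz : 1 / 2 ≤ z) : z ^ (-(4 / α)) ≤ 17 := by
  have hα : 0 < α := by linarith only [h1]
  have h2 : z ^ (-(4 / α)) ≤ (1 / 2 : ℝ) ^ (-(4 / α)) :=
    Real.rpow_le_rpow_of_nonpos (by norm_num) hz (by
      have : 0 < 4 / α := by positivity
      linarith only [this])
  have h3 : (1 / 2 : ℝ) ^ (-(4 / α)) = (2 : ℝ) ^ (4 / α) := by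
    rw [show (1 / 2 : ℝ) = 2⁻¹ by norm_num, Real.inv_rpow (by norm_num), Real.rpow_neg (by norm_num),
      inv_inv]
  have h4 : 4 / α ≤ 101 / 25 := by
    rw [div_le_div_iff₀ hα (by norm_num)]
    linarith only [h1]
  have h5 : (2 : ℝ) ^ (4 / α) ≤ (2 : ℝ) ^ (101 / 25 : ℝ) :=
    Real.rpow_le_rpow_of_exponent_le (by norm_num) h4
  linarith only [h2, h3, h5, yd_two]

theorem st_YD : ST_YD := by
  intro α a hα hα1 ha z hz
  have hα0 : 0 < α := by linarith only [hα]
  obtain ⟨c, hc⟩ : ∃ c : ℝ, c = -(4 / α) := ⟨_, rfl⟩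
  have hyy : yy α a = fun z => 1 + a * z ^ c := by
    funext z
    unfold yy
    rw [hc]
  have hss : ss α a = fun z => a * z ^ c / (1 + a * z ^ c) := by
    funext z
    unfold ss
    rw [hc]
  have hzc : 0 < z ^ c := Real.rpow_pos_of_pos hz _
  have hu : 0 < a * z ^ c := mul_pos ha hzc
  have hd : HasDerivAt (fun z : ℝ => a * z ^ c) (c * (a * z ^ c) / z) z := by
    have h1 := (Real.hasDerivAt_rpow_const (x := z) (p := c) (Or.inl hz.ne')).const_mul a
    rw [Real.rpow_sub_one hz.ne'] at h1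
    refine h1.congr_deriv ?_
    ring
  have hc4 : 4 / α = -c := by rw [hc]; ring
  refine ⟨?_, ?_, ?_, ?_, ?_, ?_, ?_⟩
  · rw [hyy]
    show 1 < 1 + a * z ^ c
    linarith only [hu]
  · rw [hss]
    show 0 < a * z ^ c / (1 + a * z ^ c)
    positivity
  · rw [hss]
    show a * z ^ c / (1 + a * z ^ c) < 1
    rw [div_lt_one (by linarith only [hu])]
    linarith only [hu]
  · rw [hyy, hss, hc4]
    refine (hd.const_add 1).congr_deriv ?_
    have : 1 + a * z ^ c ≠ 0 := by positivity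
    show c * (a * z ^ c) / z = -(-c * (a * z ^ c / (1 + a * z ^ c)) * (1 + a * z ^ c) / z)
    field_simp
  · rw [hss, hc4]
    have hne : 1 + a * z ^ c ≠ 0 := by positivity
    refine (hd.div (hd.const_add 1) hne).congr_deriv ?_
    show _ = -(-c * (a * z ^ c / (1 + a * z ^ c)) * (1 - a * z ^ c / (1 + a * z ^ c)) / z)
    field_simp
  · intro hz2
    rw [hss]
    show a * z ^ c / (1 + a * z ^ c) ≤ 17 * a
    have h1 : z ^ c ≤ 17 := by
      rw [hc]
      exact yd_pow α z hα hz2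
    calc a * z ^ c / (1 + a * z ^ c) ≤ a * z ^ c := div_le_self hu.le (by linarith only [hu])
      _ ≤ a * 17 := by gcongr
      _ = 17 * a := by ring
  · rw [hss]
    show a * (1 : ℝ) ^ c / (1 + a * (1 : ℝ) ^ c) ≤ a
    rw [Real.one_rpow, mul_one]
    exact div_le_self ha.le (by linarith only [ha])

end Pool.Agent.Helper44.GN
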